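import Mathlib

open Filter Topology

namespace Pool.Agent.Results.MP_a0c75d_an.StableCurve

/-- `x n` is the term with index `n - 1` of the problem. -/
def IsSol (α A B : ℝ) (x : ℕ → ℝ) : Prop :=
  0 ≤ x 0 ∧ 0 ≤ x 1 ∧ 0 < A + B * x 1 + x 0 ∧
    ∀ n, x (n + 2) = (α + x n) / (A + B * x (n + 1) + x n)

noncomputable def xbar (α A B : ℝ) : ℝ :=
  (1 - A + √((1 - A) ^ 2 + 4 * α * (1 + B))) / (2 * (1 + B))

noncomputable def cycM (α A B : ℝ) : ℝ := (1 - A + √((1 - A) ^ 2 - 4 * α / (B - 1))) / 2

noncomputable def cycm (α A B : ℝ) : ℝ := (1 - A - √((1 - A) ^ 2 - 4 * α / (B - 1))) / 2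

/-- the constants of the problem and the relations between them -/
structure Cst (α A B e m M : ℝ) : Prop where
  hα : 0 < α
  hB : 1 < B
  hA0 : 0 ≤ A
  hA1 : A < 1
  he : e * ((1 + B) * e - (1 - A)) = α
  he2 : 2 * e < 1 - A
  hm0 : 0 < m
  hme : m < e
  heM : e < M
  hsum : m + M = 1 - A
  hprod : (B - 1) * m * M = α

variable {α A B e m M : ℝ}

noncomputable def F (α A B u v : ℝ) : ℝ := (α + v) / (A + B * u + v)

section elementary

theorem Cst.M1 (c : Cst α A B e m M) : M < 1 := by
  have := c.hsum; have := c.hm0; have := c.hA0; linarith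

theorem Cst.e0 (c : Cst α A B e m M) : 0 < e := c.hm0.trans c.hme

theorem Cst.nlm (c : Cst α A B e m M) : α < A + B * m := by
  have h1 := c.hprod
  have h2 := c.M1
  have h3 := c.hm0
  have h4 := c.hB
  have h5 := c.hA0
  have h6 : (B - 1) * m * M < (B - 1) * m * 1 :=
    mul_lt_mul_of_pos_left h2 (mul_pos (by linarith) h3)
  nlinarith

theorem Cst.nl_of_le (c : Cst α A B e m M) {u : ℝ} (h : m ≤ u) : α < A + B * u := by
  have h1 := c.nlm
  have h2 : B * m ≤ B * u := mul_le_mul_of_nonneg_left h (by linarith [c.hB])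
  linarith

theorem low_lt (c : Cst α A B e m M) {u : ℝ} (h : A + B * u ≤ α) : u < m := by
  by_contra hge
  push Not at hge
  linarith [c.nl_of_le hge]

theorem F_anti (hα : 0 < α) (hB : 0 ≤ B) {u u' v : ℝ} (hv : 0 ≤ v) (hden : 0 < A + B * u + v)
    (h : u ≤ u') : F α A B u' v ≤ F α A B u v := by
  have h1 : B * u ≤ B * u' := mul_le_mul_of_nonneg_left h hB
  exact div_le_div_of_nonneg_left (by linarith) hden (by linarith)

theorem F_mono {u v v' : ℝ} (hnl : α ≤ A + B * u)
    (hden : 0 < A + B * u + v) (h : v ≤ v') : F α A B u v ≤ F α A B u v' := by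
  unfold F
  rw [div_le_div_iff₀ hden (by linarith)]
  nlinarith

theorem F_low {u v : ℝ} (hl : A + B * u ≤ α) (hden : 0 < A + B * u + v) :
    1 ≤ F α A B u v := by
  unfold F
  rw [le_div_iff₀ hden]
  linarith

theorem F_nonlow {u v : ℝ} (hl : α < A + B * u) (hden : 0 < A + B * u + v) :
    F α A B u v < 1 := by
  unfold F
  rw [div_lt_one hden]
  linarith

theorem F_ee (c : Cst α A B e m M) : F α A B e e = e := by
  have := c.e0
  have := c.hB
  have := c.hA0
  have := c.he
  have h1 : 0 < A + B * e + e := by positivity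
  unfold F
  rw [div_eq_iff h1.ne']
  linarith

theorem F_mM (c : Cst α A B e m M) : F α A B m M = M := by
  have h0 := c.hm0
  have h00 : 0 < M := by linarith [c.hme, c.heM]
  have := c.hB
  have := c.hA0
  have h2 := c.hprod
  have h3 := c.hsum
  have h1 : 0 < A + B * m + M := by positivity
  unfold F
  rw [div_eq_iff h1.ne']
  have h4 : A = 1 - m - M := by linarith
  rw [h4]
  linarith

theorem F_Mm (c : Cst α A B e m M) : F α A B M m = m := by
  have h0 := c.hm0
  have h00 : 0 < M := by linarith [c.hme, c.heM]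
  have := c.hB
  have := c.hA0
  have h2 := c.hprod
  have h3 := c.hsum
  have h1 : 0 < A + B * M + m := by positivity
  unfold F
  rw [div_eq_iff h1.ne']
  have h4 : A = 1 - m - M := by linarith
  rw [h4]
  linarith

/-- difference formula -/
theorem F_sub {u v u' v' : ℝ} (h1 : 0 < A + B * u + v) (h2 : 0 < A + B * u' + v') :
    F α A B u v - F α A B u' v' =
      (B * (α + v) * (u' - u) + (A + B * u - α) * (v - v')) /
        ((A + B * u + v) * (A + B * u' + v')) := by
  unfold F
  rw [div_sub_div _ _ h1.ne' h2.ne']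
  congr 1
  ring

/-- fixed pairs -/
theorem fixed_pairs (c : Cst α A B e m M) {p q : ℝ} (hp : 0 < p) (hq : 0 < q)
    (h1 : p * (A + B * q + p) = α + p) (h2 : q * (A + B * p + q) = α + q) :
    (p = e ∧ q = e) ∨ (p = m ∧ q = M) ∨ (p = M ∧ q = m) := by
  have h3 : (p - q) * (A + p + q - 1) = 0 := by linarith
  have hB := c.hB
  rcases mul_eq_zero.1 h3 with h4 | h4
  · left
    have h5 : p = q := by linarith
    subst h5
    have h6 := c.he
    have h7 : (p - e) * ((1 + B) * (p + e) - (1 - A)) = 0 := by linarith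
    rcases mul_eq_zero.1 h7 with h8 | h8
    · constructor <;> linarith
    · exfalso
      have h9 : (1 + B) * (p + e) = 1 - A := by linarith
      have h10 : e * ((1 + B) * e - (1 - A)) = -(e * ((1 + B) * p)) := by
        have : (1 + B) * e - (1 - A) = -((1 + B) * p) := by linarith
        rw [this]; ring
      rw [h6] at h10
      have h11 : 0 < e * ((1 + B) * p) := mul_pos c.e0 (mul_pos (by linarith) hp)
      linarith [c.hα]
  · right
    have h5 : p + q = m + M := by linarith [c.hsum]
    have h6 : (B - 1) * (p * q) = (B - 1) * (m * M) := by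
      have h7 := c.hprod
      have h8 : A = 1 - p - q := by linarith
      rw [h8] at h1
      linarith
    have h7 : p * q = m * M := mul_left_cancel₀ (by linarith) h6
    have h8 : (p - m) * (p - M) = 0 := by
      have : q = m + M - p := by linarith
      rw [this] at h7
      linarith
    rcases mul_eq_zero.1 h8 with h9 | h9
    · left; constructor <;> linarith
    · right; constructor <;> linarith

end elementary

section solutions

variable {x y : ℕ → ℝ}

theorem sol_nonneg (c : Cst α A B e m M) (h : IsSol α A B x) :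
    ∀ n, 0 ≤ x n ∧ 0 ≤ x (n + 1) ∧ 0 < A + B * x (n + 1) + x n := by
  have hα := c.hα
  have hB := c.hB
  have hA := c.hA0
  intro n
  induction n with
  | zero => exact ⟨h.1, h.2.1, h.2.2.1⟩
  | succ n ih =>
    have h1 : 0 < x (n + 2) := by
      rw [h.2.2.2 n]
      have := ih.1
      have := ih.2.2
      positivity
    refine ⟨ih.2.1, h1.le, ?_⟩
    have := ih.2.1
    change 0 < A + B * x (n + 2) + x (n + 1)
    positivity

theorem nn (c : Cst α A B e m M) (h : IsSol α A B x) (n : ℕ) : 0 ≤ x n := (sol_nonneg c h n).1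

theorem den (c : Cst α A B e m M) (h : IsSol α A B x) (n : ℕ) :
    0 < A + B * x (n + 1) + x n := (sol_nonneg c h n).2.2

theorem sol_pos (c : Cst α A B e m M) (h : IsSol α A B x) (n : ℕ) : 0 < x (n + 2) := by
  rw [h.2.2.2 n]
  have := c.hα
  have := nn c h n
  have := den c h n
  positivity

theorem sol_F (h : IsSol α A B x) (n : ℕ) : x (n + 2) = F α A B (x (n + 1)) (x n) := h.2.2.2 n

theorem sol_rel (c : Cst α A B e m M) (h : IsSol α A B x) (n : ℕ) :
    x (n + 2) * (A + B * x (n + 1) + x n) = α + x n := by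
  rw [h.2.2.2 n, div_mul_cancel₀ _ (den c h n).ne']

theorem IsSol.shift (c : Cst α A B e m M) (h : IsSol α A B x) (k : ℕ) :
    IsSol α A B (fun n => x (n + k)) := by
  refine ⟨nn c h _, nn c h _, ?_, fun n => ?_⟩
  · have := den c h k
    change 0 < A + B * x (1 + k) + x (0 + k)
    rw [add_comm 1 k, zero_add]
    exact this
  · have := h.2.2.2 (n + k)
    change x (n + 2 + k) = (α + x (n + k)) / (A + B * x (n + 1 + k) + x (n + k))
    rw [show n + 2 + k = n + k + 2 by ring, show n + 1 + k = n + k + 1 by ring]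
    exact this

/-- trapping region -/
theorem trap (c : Cst α A B e m M) (h : IsSol α A B x) {q p : ℝ} (hq0 : m ≤ q) (hq1 : q ≤ 1)
    (_hp0 : 0 ≤ p) (h1 : q ≤ F α A B p q) (h2 : F α A B q p ≤ p) (hx0 : q ≤ x 0) (hx1 : x 1 ≤ p) :
    ∀ k, q ≤ x (2 * k) ∧ x (2 * k + 1) ≤ p := by
  have hα := c.hα
  have hB := c.hB
  have hA := c.hA0
  have hm := c.hm0
  have hq : 0 < q := by linarith
  intro k
  induction k with
  | zero => exact ⟨hx0, hx1⟩
  | succ k ih =>
    have n0 := nn c h (2 * k)
    have n1 := nn c h (2 * k + 1)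
    have n2 := nn c h (2 * k + 2)
    have d0 := den c h (2 * k)
    have d1 := den c h (2 * k + 1)
    have g1 : q ≤ x (2 * k + 2) := by
      rw [sol_F h (2 * k)]
      rcases le_or_gt (A + B * x (2 * k + 1)) α with hl | hl
      · exact hq1.trans (F_low hl d0)
      · have d2 : 0 < A + B * x (2 * k + 1) + q := by positivity
        calc q ≤ F α A B p q := h1
          _ ≤ F α A B (x (2 * k + 1)) q := F_anti hα (by linarith) hq.le d2 ih.2
          _ ≤ F α A B (x (2 * k + 1)) (x (2 * k)) := F_mono hl.le d2 ih.1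
    have g2 : x (2 * k + 3) ≤ p := by
      rw [show 2 * k + 3 = 2 * k + 1 + 2 by ring, sol_F h (2 * k + 1)]
      have d2 : 0 < A + B * q + x (2 * k + 1) := by positivity
      calc F α A B (x (2 * k + 1 + 1)) (x (2 * k + 1)) ≤ F α A B q (x (2 * k + 1)) :=
            F_anti hα (by linarith) n1 d2 g1
        _ ≤ F α A B q p := F_mono (c.nl_of_le hq0).le d2 ih.2
        _ ≤ p := h2
    exact ⟨g1, g2⟩

/-- after a low term the solution stays in the outer region -/
theorem outer (c : Cst α A B e m M) (h : IsSol α A B x) (hl : A + B * x 1 ≤ α) :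
    ∀ k, x (2 * k + 1) ≤ m ∧ M ≤ x (2 * k + 2) := by
  have hα := c.hα
  have hB := c.hB
  have hA := c.hA0
  have hm := c.hm0
  have hM : 0 < M := by linarith [c.hme, c.heM]
  have h2 : 1 ≤ x 2 := by
    rw [sol_F h 0]
    exact F_low hl (den c h 0)
  have hM1 := c.M1
  have n1 := nn c h 1
  have h3 : x 3 ≤ m := by
    have hx1 : x 1 < m := low_lt c hl
    rw [show 3 = 1 + 2 by rfl, sol_F h 1]
    have d2 : 0 < A + B * M + x 1 := by positivity
    have hF : F α A B M m = m := F_Mm c
    calc F α A B (x (1 + 1)) (x 1) ≤ F α A B M (x 1) :=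
          F_anti hα (by linarith) n1 d2 (by change M ≤ x 2; linarith)
      _ ≤ F α A B M m := F_mono (c.nl_of_le (by linarith [c.hme, c.heM])).le d2 hx1.le
      _ = m := hF
  have ht := trap c (h.shift c 2) (q := M) (p := m) (by linarith [c.hme, c.heM]) hM1.le hm.le
    (F_mM c).ge (F_Mm c).le (by change M ≤ x 2; linarith) (by change x 3 ≤ m; exact h3)
  intro k
  constructor
  · rcases Nat.eq_zero_or_pos k with rfl | hk
    · exact (low_lt c hl).le
    · have := (ht (k - 1)).2
      rw [show 2 * (k - 1) + 1 + 2 = 2 * k + 1 by omega] at this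
      exact this
  · exact (ht k).1

end solutions

/-! ### eventually no term is low -/

section nonlow

variable {x : ℕ → ℝ}

theorem persist (c : Cst α A B e m M) {p q : ℝ} (hq0 : 0 ≤ q) (hq1 : q ≤ 1)
    (hp0 : 0 ≤ p) (hp : α < A + B * p) : α < A + B * F α A B q p := by
  have hα := c.hα
  have hB := c.hB
  have hA := c.hA0
  have hden : 0 < A + B * q + p := by
    rcases hp0.eq_or_lt with h | h
    · rw [← h] at hp
      have : 0 < A := by linarith
      positivity
    · positivity
  rcases lt_or_ge α A with h | h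
  · have : 0 ≤ B * F α A B q p := by
      unfold F
      positivity
    linarith
  · have hp1 : 0 < p := by
      rcases hp0.eq_or_lt with h1 | h1
      · rw [← h1] at hp
        linarith
      · exact h1
    have h1 : α < B := by
      have h2 := c.hprod
      have h3 := c.M1
      have h4 := c.hm0
      have h5 : m * M < 1 * 1 := by
        apply mul_lt_mul' <;> linarith [c.hme, c.heM]
      nlinarith
    have h2 : 0 < (A + p) * (B - (α - A)) := mul_pos (by linarith) (by linarith)
    have h3 : (α - A) * (A + B * q + p) < B * (α + p) := by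
      have h4 : (α - A) * (A + B * q + p) ≤ (α - A) * (A + B + p) := by
        apply mul_le_mul_of_nonneg_left _ (by linarith)
        have : B * q ≤ B * 1 := mul_le_mul_of_nonneg_left hq1 (by linarith)
        linarith
      nlinarith
    have h4 : B * F α A B q p = B * (α + p) / (A + B * q + p) := by
      unfold F
      ring
    rw [h4]
    have h5 : α - A < B * (α + p) / (A + B * q + p) := by
      rw [lt_div_iff₀ hden]
      exact h3
    linarith

theorem low_increase (c : Cst α A B e m M) {p : ℝ} (hp0 : 0 ≤ p) (hp : A + B * p ≤ α) :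
    p < F α A B (F α A B p M) p := by
  have hα := c.hα
  have hB := c.hB
  have hA := c.hA0
  have hM : 0 < M := by linarith [c.hm0, c.hme, c.heM]
  obtain ⟨q, hq⟩ : ∃ q, q = F α A B p M := ⟨_, rfl⟩
  have hd1 : 0 < A + B * p + M := by positivity
  have hqr : q * (A + B * p + M) = α + M := by
    rw [hq]; unfold F; rw [div_mul_cancel₀ _ hd1.ne']
  have hq0 : 0 < q := by
    rw [hq]; unfold F; positivity
  have hd2 : 0 < A + B * q + p := by positivity
  rw [← hq]
  unfold F
  rw [lt_div_iff₀ hd2]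
  have hpm := low_lt c hp
  have key : B * p * (α + M) < (α + p * (1 - A - p)) * (A + B * p + M) := by
    have h1 : (α + p * M) * (A + B * p + M) ≤ (α + p * (1 - A - p)) * (A + B * p + M) := by
      apply mul_le_mul_of_nonneg_right _ hd1.le
      have : p * M ≤ p * (1 - A - p) := mul_le_mul_of_nonneg_left (by linarith [c.hsum]) hp0
      linarith
    have h2 : (α + p * M) * (A + B * p + M) - B * p * (α + M) =
        M * (α - B * p) + p * M * (A + B * p) + p * M ^ 2 + A * α := by ring
    have h3 : 0 ≤ p * M * (A + B * p) := by positivity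
    have h4 : 0 ≤ A * α := by positivity
    have h5 : 0 ≤ p * M ^ 2 := by positivity
    have h6 : 0 ≤ M * (α - B * p) := mul_nonneg hM.le (by linarith)
    rcases hp0.eq_or_lt with h7 | h7
    · have h8 : 0 < M * (α - B * p) := by
        rw [← h7]
        have : 0 < α - B * 0 := by linarith
        positivity
      linarith
    · have h8 : 0 < p * M ^ 2 := by positivity
      linarith
  have h3 : p * (B * q) * (A + B * p + M) = B * p * (α + M) := by
    rw [← hqr]; ring
  have h4 : (p * (A + B * q + p)) * (A + B * p + M) < (α + p) * (A + B * p + M) := by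
    have h5 : (p * (A + B * q + p)) * (A + B * p + M) =
        p * (B * q) * (A + B * p + M) + p * (A + p) * (A + B * p + M) := by ring
    have h6 : (α + p * (1 - A - p)) * (A + B * p + M) =
        (α + p) * (A + B * p + M) - p * (A + p) * (A + B * p + M) := by ring
    linarith
  exact lt_of_mul_lt_mul_right h4 hd1.le

theorem eventually_nonlow (c : Cst α A B e m M) (h : IsSol α A B x) :
    ∃ N, ∀ n, N ≤ n → α < A + B * x n := by
  by_contra hno
  push Not at hno
  have hα := c.hα
  have hB := c.hB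
  have hA := c.hA0
  have hM : 0 < M := by linarith [c.hm0, c.hme, c.heM]
  obtain ⟨n0, hn0, hlow⟩ := hno 1
  obtain ⟨k0, rfl⟩ : ∃ k, n0 = k + 1 := ⟨n0 - 1, by omega⟩
  have hz := h.shift c k0
  obtain ⟨z, hzdef⟩ : ∃ z : ℕ → ℝ, z = fun n => x (n + k0) := ⟨_, rfl⟩
  rw [← hzdef] at hz
  have hzx : ∀ n, z n = x (n + k0) := fun n => by rw [hzdef]
  have hz1 : A + B * z 1 ≤ α := by rw [hzx, add_comm 1 k0]; exact hlow
  have hout := outer c hz hz1
  by_cases hall : ∀ k, A + B * z (2 * k + 1) ≤ α
  · -- contradiction: the low subsequence would increase forever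
    have hstep : ∀ k, F α A B (F α A B (z (2 * k + 3)) M) (z (2 * k + 3)) ≤ z (2 * k + 5) := by
      intro k
      have l1 := hall (k + 1)
      rw [show 2 * (k + 1) + 1 = 2 * k + 3 by ring] at l1
      have n3 := nn c hz (2 * k + 3)
      have n4 := nn c hz (2 * k + 4)
      have n2 := nn c hz (2 * k + 2)
      have hM2 := (hout k).2
      have hd : 0 < A + B * z (2 * k + 3) + M := by positivity
      have h4 : z (2 * k + 4) ≤ F α A B (z (2 * k + 3)) M := by
        rw [show 2 * k + 4 = 2 * k + 2 + 2 by ring, sol_F hz (2 * k + 2)]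
        rw [show 2 * k + 2 + 1 = 2 * k + 3 by ring]
        unfold F
        have hb3 : 0 ≤ B * z (2 * k + 3) := by positivity
        have hd' : 0 < A + B * z (2 * k + 3) + z (2 * k + 2) := by linarith
        rw [div_le_div_iff₀ hd' hd]
        nlinarith
      rw [show 2 * k + 5 = 2 * k + 3 + 2 by ring, sol_F hz (2 * k + 3)]
      rw [show 2 * k + 3 + 1 = 2 * k + 4 by ring]
      have h5 : 0 < A + B * z (2 * k + 4) + z (2 * k + 3) := den c hz (2 * k + 3)
      exact F_anti hα (by linarith) n3 h5 h4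
    have hmono : Monotone (fun k => z (2 * k + 3)) := by
      apply monotone_nat_of_le_succ
      intro k
      have l1 := hall (k + 1)
      rw [show 2 * (k + 1) + 1 = 2 * k + 3 by ring] at l1
      have := low_increase c (nn c hz (2 * k + 3)) l1
      have h2 := hstep k
      rw [show 2 * (k + 1) + 3 = 2 * k + 5 by ring]
      linarith
    have hbdd : BddAbove (Set.range (fun k => z (2 * k + 3))) := by
      refine ⟨m, ?_⟩
      rintro _ ⟨k, rfl⟩
      have := (hout (k + 1)).1
      rw [show 2 * (k + 1) + 1 = 2 * k + 3 by ring] at this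
      exact this
    have hlim := tendsto_atTop_ciSup hmono hbdd
    obtain ⟨p, hp⟩ : ∃ p, p = ⨆ k, z (2 * k + 3) := ⟨_, rfl⟩
    rw [← hp] at hlim
    have hp0 : 0 ≤ p := ge_of_tendsto' hlim (fun k => nn c hz _)
    have hpl : A + B * p ≤ α := by
      refine le_of_tendsto' ((hlim.const_mul B).const_add A) (fun k => ?_)
      have l1 := hall (k + 1)
      rw [show 2 * (k + 1) + 1 = 2 * k + 3 by ring] at l1
      exact l1
    have hlim2 : Tendsto (fun k => z (2 * k + 5)) atTop (𝓝 p) := by
      have := hlim.comp (tendsto_add_atTop_nat 1)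
      refine this.congr (fun k => ?_)
      simp only [Function.comp]
      congr 1
    have hd1 : 0 < A + B * p + M := by positivity
    have hF1 : Tendsto (fun k => F α A B (z (2 * k + 3)) M) atTop (𝓝 (F α A B p M)) := by
      unfold F
      refine Tendsto.div tendsto_const_nhds ?_ hd1.ne'
      exact ((hlim.const_mul B).const_add A).add_const M
    have hq0 : 0 < F α A B p M := by unfold F; positivity
    have hd2 : 0 < A + B * F α A B p M + p := by positivity
    have hF2 : Tendsto (fun k => F α A B (F α A B (z (2 * k + 3)) M) (z (2 * k + 3))) atTop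
        (𝓝 (F α A B (F α A B p M) p)) := by
      have : Tendsto (fun k => (α + z (2 * k + 3)) /
          (A + B * F α A B (z (2 * k + 3)) M + z (2 * k + 3))) atTop
          (𝓝 ((α + p) / (A + B * F α A B p M + p))) :=
        Tendsto.div (hlim.const_add α) (((hF1.const_mul B).const_add A).add hlim) hd2.ne'
      exact this
    have hle := le_of_tendsto_of_tendsto' hF2 hlim2 hstep
    linarith [low_increase c hp0 hpl]
  · push Not at hall
    obtain ⟨k1, hk1⟩ := hall
    have hpers : ∀ j, α < A + B * z (2 * (k1 + j) + 1) := by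
      intro j
      induction j with
      | zero => exact hk1
      | succ j ih =>
        have n1 := nn c hz (2 * (k1 + j) + 1)
        have n2 := nn c hz (2 * (k1 + j) + 2)
        have q1 : z (2 * (k1 + j) + 2) ≤ 1 := by
          rw [sol_F hz (2 * (k1 + j))]
          exact (F_nonlow ih (den c hz _)).le
        have := persist c n2 q1 n1 ih
        rw [show 2 * (k1 + (j + 1)) + 1 = 2 * (k1 + j) + 1 + 2 by ring, sol_F hz]
        exact this
    obtain ⟨n, hn, hnl⟩ := hno (k0 + 2 * k1 + 2)
    obtain ⟨d, rfl⟩ : ∃ d, n = k0 + 2 * k1 + 2 + d := ⟨n - (k0 + 2 * k1 + 2), by omega⟩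
    rcases Nat.even_or_odd' d with ⟨j, rfl | rfl⟩
    · have h1 := (hout (k1 + j)).2
      have h2 := c.nl_of_le (u := z (2 * (k1 + j) + 2)) (by linarith [c.hme, c.heM])
      rw [hzx, show 2 * (k1 + j) + 2 + k0 = k0 + 2 * k1 + 2 + 2 * j by ring] at h2
      linarith
    · have h2 := hpers (j + 1)
      rw [hzx, show 2 * (k1 + (j + 1)) + 1 + k0 = k0 + 2 * k1 + 2 + (2 * j + 1) by ring] at h2
      linarith

end nonlow

/-! ### the trichotomy -/

section trichotomy

variable {x : ℕ → ℝ}

/-- the even-indexed terms (of the shifted sequence) tend to `p`, the odd-indexed ones to `q` -/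
def Two (x : ℕ → ℝ) (p q : ℝ) : Prop :=
  Tendsto (fun k => x (2 * k)) atTop (𝓝 p) ∧ Tendsto (fun k => x (2 * k + 1)) atTop (𝓝 q)

theorem Two.shift {p q : ℝ} (h : Two x p q) : Two (fun n => x (n + 1)) q p := by
  refine ⟨h.2, ?_⟩
  have := h.1.comp (tendsto_add_atTop_nat 1)
  refine this.congr (fun k => ?_)
  simp only [Function.comp]
  congr 1

theorem Two.of_shift {p q : ℝ} (h : Two (fun n => x (n + 1)) q p) : Two x p q := by
  refine ⟨?_, h.1⟩
  rw [← tendsto_add_atTop_iff_nat 1]
  refine h.2.congr (fun k => ?_)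
  congr 1

theorem Two.of_shift_any {p q : ℝ} (a : ℕ) (h : Two (fun n => x (n + a)) p q) :
    Two x p q ∨ Two x q p := by
  induction a generalizing p q with
  | zero => exact Or.inl h
  | succ a ih =>
    have h' : Two (fun n => (fun n => x (n + a)) (n + 1)) p q := by
      refine ⟨h.1.congr (fun k => ?_), h.2.congr (fun k => ?_)⟩
      · change x (2 * k + (a + 1)) = x (2 * k + 1 + a)
        congr 1; ring
      · change x (2 * k + 1 + (a + 1)) = x (2 * k + 1 + 1 + a)
        congr 1; ring
    exact (ih h'.of_shift).symm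

theorem Two.tendsto {p : ℝ} (h : Two x p p) : Tendsto x atTop (𝓝 p) := by
  rw [Metric.tendsto_atTop]
  intro ε hε
  obtain ⟨N1, h1⟩ := (Metric.tendsto_atTop.1 h.1) ε hε
  obtain ⟨N2, h2⟩ := (Metric.tendsto_atTop.1 h.2) ε hε
  refine ⟨2 * (N1 + N2) + 1, fun n hn => ?_⟩
  rcases Nat.even_or_odd' n with ⟨k, rfl | rfl⟩
  · exact h1 k (by omega)
  · exact h2 k (by omega)

theorem two_of_tendsto {p : ℝ} (h : Tendsto x atTop (𝓝 p)) : Two x p p := by
  have h1 : Tendsto (fun k : ℕ => 2 * k) atTop atTop :=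
    tendsto_atTop_mono (fun n => by simp only [id]; omega) tendsto_id
  have h2 : Tendsto (fun k : ℕ => 2 * k + 1) atTop atTop :=
    tendsto_atTop_mono (fun n => by simp only [id]; omega) tendsto_id
  exact ⟨h.comp h1, h.comp h2⟩

theorem Two.unique {p q p' q' : ℝ} (h : Two x p q) (h' : Two x p' q') : p = p' ∧ q = q' :=
  ⟨tendsto_nhds_unique h.1 h'.1, tendsto_nhds_unique h.2 h'.2⟩

theorem mono_conv {s : ℕ → ℝ} {K : ℝ} (hK : ∀ k, |s k| ≤ K)
    (h : (∀ k, s k ≤ s (k + 1)) ∨ (∀ k, s (k + 1) ≤ s k)) : ∃ L, Tendsto s atTop (𝓝 L) := by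
  rcases h with h | h
  · refine ⟨_, tendsto_atTop_ciSup (monotone_nat_of_le_succ h) ⟨K, ?_⟩⟩
    rintro _ ⟨k, rfl⟩
    exact (abs_le.1 (hK k)).2
  · refine ⟨_, tendsto_atTop_ciInf (antitone_nat_of_succ_le h) ⟨-K, ?_⟩⟩
    rintro _ ⟨k, rfl⟩
    exact (abs_le.1 (hK k)).1

/-- order preservation in the nonlow range -/
theorem F_comp (c : Cst α A B e m M) {u u' v v' : ℝ} (hv : 0 ≤ v) (hnl : α < A + B * u)
    (d2 : 0 < A + B * u' + v') (h1 : u' ≤ u) (h2 : v ≤ v') : F α A B u v ≤ F α A B u' v' := by
  have hα := c.hα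
  have hB := c.hB
  have d1 : 0 < A + B * u + v := by linarith
  calc F α A B u v ≤ F α A B u v' := F_mono hnl.le d1 h2
    _ ≤ F α A B u' v' := F_anti hα (by linarith) (by linarith) d2 h1

theorem trichotomy (c : Cst α A B e m M) (h : IsSol α A B x) :
    Two x e e ∨ Two x M m ∨ Two x m M := by
  have hα := c.hα
  have hB := c.hB
  have hA := c.hA0
  obtain ⟨N, hN⟩ := eventually_nonlow c h
  have hz := h.shift c N
  obtain ⟨z, hzdef⟩ : ∃ z : ℕ → ℝ, z = fun n => x (n + N) := ⟨_, rfl⟩
  rw [← hzdef] at hz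
  have hnl : ∀ n, α < A + B * z n := by
    intro n; rw [hzdef]; exact hN _ (by omega)
  have hlt : ∀ n, z (n + 2) < 1 := fun n => by
    rw [sol_F hz n]; exact F_nonlow (hnl _) (den c hz n)
  have hbd : ∀ n, |z n| ≤ max (max (z 0) (z 1)) 1 := by
    intro n
    rw [abs_of_nonneg (nn c hz n)]
    match n with
    | 0 => exact le_max_of_le_left (le_max_left _ _)
    | 1 => exact le_max_of_le_left (le_max_right _ _)
    | n + 2 => exact le_max_of_le_right (hlt n).le
  have up : ∀ n, z n ≤ z (n + 2) → z (n + 3) ≤ z (n + 1) → z (n + 2) ≤ z (n + 4) := by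
    intro n h1 h2
    rw [show n + 4 = n + 2 + 2 by ring, sol_F hz (n + 2), sol_F hz n]
    exact F_comp c (nn c hz n) (hnl _) (by
      have := den c hz (n + 2); rw [sol_F hz n] at this; exact this) h2 (by
      rw [← sol_F hz n]; exact h1)
  have down : ∀ n, z (n + 2) ≤ z n → z (n + 1) ≤ z (n + 3) → z (n + 4) ≤ z (n + 2) := by
    intro n h1 h2
    have e4 : z (n + 4) = F α A B (z (n + 3)) (z (n + 2)) := sol_F hz (n + 2)
    have e2 : z (n + 2) = F α A B (z (n + 1)) (z n) := sol_F hz n
    rw [e4]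
    conv_rhs => rw [e2]
    exact F_comp c (nn c hz _) (hnl _) (den c hz n) h2 h1
  have mono : ∃ n0, ((∀ k, z (2 * k + n0) ≤ z (2 * (k + 1) + n0)) ∨
      (∀ k, z (2 * (k + 1) + n0) ≤ z (2 * k + n0))) ∧
      ((∀ k, z (2 * k + 1 + n0) ≤ z (2 * (k + 1) + 1 + n0)) ∨
      (∀ k, z (2 * (k + 1) + 1 + n0) ≤ z (2 * k + 1 + n0))) := by
    have PQ : ∀ n, (z n ≤ z (n + 2) ∧ z (n + 3) ≤ z (n + 1)) →
        ∀ k, z (2 * k + n) ≤ z (2 * k + n + 2) ∧ z (2 * k + n + 3) ≤ z (2 * k + n + 1) := by
      intro n hP k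
      induction k with
      | zero => rw [Nat.mul_zero, Nat.zero_add]; exact hP
      | succ k ih =>
        have h1 := up _ ih.1 ih.2
        have h2 := down (2 * k + n + 1) ih.2 h1
        rw [show 2 * (k + 1) + n = 2 * k + n + 2 by ring]
        exact ⟨h1, h2⟩
    have QP : ∀ n, (z (n + 2) ≤ z n ∧ z (n + 1) ≤ z (n + 3)) →
        ∀ k, z (2 * k + n + 2) ≤ z (2 * k + n) ∧ z (2 * k + n + 1) ≤ z (2 * k + n + 3) := by
      intro n hP k
      induction k with
      | zero => rw [Nat.mul_zero, Nat.zero_add]; exact hP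
      | succ k ih =>
        have h1 := down _ ih.1 ih.2
        have h2 := up (2 * k + n + 1) ih.2 h1
        rw [show 2 * (k + 1) + n = 2 * k + n + 2 by ring]
        exact ⟨h1, h2⟩
    by_cases hP : ∃ n, z n ≤ z (n + 2) ∧ z (n + 3) ≤ z (n + 1)
    · obtain ⟨n, hn⟩ := hP
      have := PQ n hn
      refine ⟨n, Or.inl (fun k => ?_), Or.inr (fun k => ?_)⟩
      · have h1 := (this k).1
        rw [show 2 * (k + 1) + n = 2 * k + n + 2 by ring]; exact h1
      · have h1 := (this k).2
        rw [show 2 * (k + 1) + 1 + n = 2 * k + n + 3 by ring,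
          show 2 * k + 1 + n = 2 * k + n + 1 by ring]; exact h1
    by_cases hQ : ∃ n, z (n + 2) ≤ z n ∧ z (n + 1) ≤ z (n + 3)
    · obtain ⟨n, hn⟩ := hQ
      have := QP n hn
      refine ⟨n, Or.inr (fun k => ?_), Or.inl (fun k => ?_)⟩
      · have h1 := (this k).1
        rw [show 2 * (k + 1) + n = 2 * k + n + 2 by ring]; exact h1
      · have h1 := (this k).2
        rw [show 2 * (k + 1) + 1 + n = 2 * k + n + 3 by ring,
          show 2 * k + 1 + n = 2 * k + n + 1 by ring]; exact h1
    push Not at hP hQ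
    refine ⟨0, ?_⟩
    simp only [Nat.add_zero]
    rcases lt_or_ge (z 2) (z 0) with h0 | h0
    · have hall : ∀ n, z (n + 2) ≤ z n := by
        intro n
        induction n with
        | zero => exact h0.le
        | succ n ih =>
          exact (hQ n ih).le
      exact ⟨Or.inr (fun k => hall _), Or.inr (fun k => hall _)⟩
    · have hall : ∀ n, z n ≤ z (n + 2) := by
        intro n
        induction n with
        | zero => exact h0
        | succ n ih =>
          exact (hP n ih).le
      exact ⟨Or.inl (fun k => hall _), Or.inl (fun k => hall _)⟩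
  obtain ⟨n0, hm1, hm2⟩ := mono
  obtain ⟨p, hp⟩ := mono_conv (s := fun k => z (2 * k + n0)) (fun k => hbd _) hm1
  obtain ⟨q, hq⟩ := mono_conv (s := fun k => z (2 * k + 1 + n0)) (fun k => hbd _) hm2
  have hp0 : 0 ≤ p := ge_of_tendsto' hp (fun k => nn c hz _)
  have hq0 : 0 ≤ q := ge_of_tendsto' hq (fun k => nn c hz _)
  have hp' : Tendsto (fun k => z (2 * k + 2 + n0)) atTop (𝓝 p) := by
    refine (hp.comp (tendsto_add_atTop_nat 1)).congr (fun k => ?_)
    simp only [Function.comp]
    congr 1
  have hq' : Tendsto (fun k => z (2 * k + 3 + n0)) atTop (𝓝 q) := by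
    refine (hq.comp (tendsto_add_atTop_nat 1)).congr (fun k => ?_)
    simp only [Function.comp]
    congr 1
  have eq1 : p * (A + B * q + p) = α + p := by
    refine tendsto_nhds_unique (hp'.mul (((hq.const_mul B).const_add A).add hp))
      ((hp.const_add α).congr (fun k => ?_))
    have := sol_rel c hz (2 * k + n0)
    rw [show 2 * k + n0 + 2 = 2 * k + 2 + n0 by ring,
      show 2 * k + n0 + 1 = 2 * k + 1 + n0 by ring] at this
    exact this.symm
  have eq2 : q * (A + B * p + q) = α + q := by
    refine tendsto_nhds_unique (hq'.mul (((hp'.const_mul B).const_add A).add hq))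
      ((hq.const_add α).congr (fun k => ?_))
    have := sol_rel c hz (2 * k + 1 + n0)
    rw [show 2 * k + 1 + n0 + 2 = 2 * k + 3 + n0 by ring,
      show 2 * k + 1 + n0 + 1 = 2 * k + 2 + n0 by ring] at this
    exact this.symm
  have hp1 : 0 < p := by
    rcases hp0.eq_or_lt with h1 | h1
    · rw [← h1] at eq1; linarith
    · exact h1
  have hq1 : 0 < q := by
    rcases hq0.eq_or_lt with h1 | h1
    · rw [← h1] at eq2; linarith
    · exact h1
  have hTz : Two (fun n => z (n + n0)) p q := ⟨hp, hq⟩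
  have hTx : Two x p q ∨ Two x q p := by
    rcases hTz.of_shift_any n0 with h1 | h1
    · rw [hzdef] at h1
      exact h1.of_shift_any N
    · rw [hzdef] at h1
      exact (h1.of_shift_any N).symm
  rcases fixed_pairs c hp1 hq1 eq1 eq2 with ⟨rfl, rfl⟩ | ⟨rfl, rfl⟩ | ⟨rfl, rfl⟩
  · left; rcases hTx with h1 | h1 <;> exact h1
  · right; exact hTx.symm
  · right; exact hTx

end trichotomy

/-! ### comparison of solutions -/

section compare

variable {x y z : ℕ → ℝ}

theorem Two.parity (n : ℕ) : ∀ {p q : ℝ}, Two (fun j => x (j + n)) p q →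
    (Even n → Two x p q) ∧ (Odd n → Two x q p) := by
  induction n with
  | zero =>
    intro p q h
    exact ⟨fun _ => h, fun ho => by simp at ho⟩
  | succ n ih =>
    intro p q h
    have h' : Two (fun j => (fun i => x (i + n)) (j + 1)) p q := by
      refine ⟨h.1.congr (fun k => ?_), h.2.congr (fun k => ?_)⟩
      · change x (2 * k + (n + 1)) = x (2 * k + 1 + n)
        congr 1; ring
      · change x (2 * k + 1 + (n + 1)) = x (2 * k + 1 + 1 + n)
        congr 1; ring
    have h2 := ih h'.of_shift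
    exact ⟨fun he => h2.2 (Nat.not_even_iff_odd.1 (fun h3 => (Nat.even_add_one.1 he) h3)),
      fun ho => h2.1 (Nat.not_odd_iff_even.1 (fun h3 => (Nat.odd_add_one.1 ho) h3))⟩

theorem two_shift_e (h : Two x e e) (n : ℕ) : Two (fun j => x (j + n)) e e := by
  induction n with
  | zero => exact h
  | succ n ih =>
    have := ih.shift
    refine ⟨this.1.congr (fun k => ?_), this.2.congr (fun k => ?_)⟩
    · change x (2 * k + 1 + n) = x (2 * k + (n + 1))
      congr 1; ring
    · change x (2 * k + 1 + 1 + n) = x (2 * k + 1 + (n + 1))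
      congr 1; ring

theorem low_two (c : Cst α A B e m M) (h : IsSol α A B x) (hl : A + B * x 1 ≤ α) :
    Two x M m := by
  have ho := outer c h hl
  rcases trichotomy c h with h1 | h1 | h1
  · exfalso
    have := le_of_tendsto' h1.2 (fun k => (ho k).1)
    linarith [c.hme]
  · exact h1
  · exfalso
    have := le_of_tendsto' h1.2 (fun k => (ho k).1)
    linarith [c.hme, c.heM]

theorem not_low_of_e (c : Cst α A B e m M) (h : IsSol α A B x) (ht : Two x e e) (n : ℕ) :
    α < A + B * x (n + 1) := by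
  by_contra hl
  push Not at hl
  have h1 := low_two c (h.shift c n) (by rw [add_comm 1 n]; exact hl)
  have h2 := two_shift_e ht n
  have := (h1.unique h2).1
  linarith [c.heM]

/-- two comparable solutions converging to the equilibrium coincide -/
theorem W_unique (c : Cst α A B e m M) (hx : IsSol α A B x) (hy : IsSol α A B y)
    (tx : Two x e e) (ty : Two y e e) (h0 : x 0 ≤ y 0) (h1 : y 1 ≤ x 1) :
    x 0 = y 0 ∧ x 1 = y 1 := by
  have hα := c.hα
  have hB := c.hB
  have hA := c.hA0
  have he0 := c.e0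
  by_contra hne
  have hnl := not_low_of_e c hy ty
  obtain ⟨E, hE⟩ : ∃ E : ℕ → ℝ, ∀ n, E n = (-1) ^ n * (y n - x n) := ⟨_, fun n => rfl⟩
  obtain ⟨P, hP⟩ : ∃ P : ℕ → ℝ, ∀ n, P n = B * (α + y n) /
    ((A + B * y (n + 1) + y n) * (A + B * x (n + 1) + x n)) := ⟨_, fun n => rfl⟩
  obtain ⟨Q, hQ⟩ : ∃ Q : ℕ → ℝ, ∀ n, Q n = (A + B * y (n + 1) - α) /
    ((A + B * y (n + 1) + y n) * (A + B * x (n + 1) + x n)) := ⟨_, fun n => rfl⟩
  have hrec : ∀ n, E (n + 2) = P n * E (n + 1) + Q n * E n := by
    intro n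
    have h3 := F_sub (α := α) (den c hy n) (den c hx n)
    rw [hE, hE, hE, hP, hQ, sol_F hy n, sol_F hx n, h3]
    ring
  have hPp : ∀ n, 0 < P n := by
    intro n
    rw [hP]
    have := den c hy n
    have := den c hx n
    have := nn c hy n
    positivity
  have hQp : ∀ n, 0 < Q n := by
    intro n
    rw [hQ]
    have := den c hy n
    have := den c hx n
    have : 0 < A + B * y (n + 1) - α := by linarith [hnl n]
    positivity
  have hE0 : 0 ≤ E 0 := by rw [hE]; simp; exact h0
  have hE1 : 0 ≤ E 1 := by rw [hE]; simp; exact h1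
  have hEpos : 0 < E 0 ∨ 0 < E 1 := by
    by_contra hno
    push Not at hno
    apply hne
    have e0 : E 0 = 0 := le_antisymm hno.1 hE0
    have e1 : E 1 = 0 := le_antisymm hno.2 hE1
    rw [hE] at e0 e1
    simp at e0 e1
    constructor <;> linarith
  have hE2 : 0 < E 2 := by
    rw [hrec 0]
    rcases hEpos with h2 | h2
    · have := mul_nonneg (hPp 0).le hE1
      have := mul_pos (hQp 0) h2
      simp only [zero_add]
      linarith
    · have := mul_pos (hPp 0) h2
      have := mul_nonneg (hQp 0).le hE0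
      simp only [zero_add]
      linarith
  have hEall : ∀ n, 0 < E (n + 2) ∧ 0 ≤ E (n + 1) := by
    intro n
    induction n with
    | zero => exact ⟨hE2, hE1⟩
    | succ n ih =>
      refine ⟨?_, ih.1.le⟩
      rw [show n + 1 + 2 = (n + 1) + 2 by rfl, hrec (n + 1)]
      have h2 := mul_pos (hPp (n + 1)) ih.1
      have h3 := mul_nonneg (hQp (n + 1)).le ih.2
      rw [show n + 1 + 1 = n + 2 by ring]
      linarith
  -- limit of P + Q
  have hD : 0 < A + B * e + e := by positivity
  have tx' := tx.tendsto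
  have ty' := ty.tendsto
  have tx1 := (tendsto_add_atTop_iff_nat 1).2 tx'
  have ty1 := (tendsto_add_atTop_iff_nat 1).2 ty'
  have hlim : Tendsto (fun n => P n + Q n) atTop
      (𝓝 ((B * (α + e) + (A + B * e - α)) / ((A + B * e + e) * (A + B * e + e)))) := by
    have : Tendsto (fun n => (B * (α + y n) + (A + B * y (n + 1) - α)) /
        ((A + B * y (n + 1) + y n) * (A + B * x (n + 1) + x n))) atTop
        (𝓝 ((B * (α + e) + (A + B * e - α)) / ((A + B * e + e) * (A + B * e + e)))) := by
      refine Tendsto.div ?_ ?_ (by positivity)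
      · exact ((ty'.const_add α).const_mul B).add (((ty1.const_mul B).const_add A).sub_const α)
      · exact (((ty1.const_mul B).const_add A).add ty').mul
          (((tx1.const_mul B).const_add A).add tx')
    refine this.congr (fun n => ?_)
    rw [hP, hQ, ← add_div]
  have hgt : 1 < (B * (α + e) + (A + B * e - α)) / ((A + B * e + e) * (A + B * e + e)) := by
    rw [lt_div_iff₀ (by positivity), one_mul]
    have h2 := c.he
    have h3 := c.he2
    have h4 : α + e = e * (A + B * e + e) := by linarith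
    have h5 : B * (α + e) + (A + B * e - α) = (A + B * e + e) * (B * e + 1 - e) := by
      have h6 : α = e * (A + B * e + e) - e := by linarith
      rw [h6]; ring
    rw [h5]
    exact mul_lt_mul_of_pos_left (by linarith) hD
  obtain ⟨N, hN⟩ := (eventually_atTop.1 (hlim.eventually (lt_mem_nhds hgt)))
  obtain ⟨μ, hμ⟩ : ∃ μ, μ = min (E (N + 2)) (E (N + 3)) := ⟨_, rfl⟩
  have hμ0 : 0 < μ := by
    rw [hμ]; exact lt_min (hEall N).1 (hEall (N + 1)).1
  have hlow : ∀ k, μ ≤ E (N + 2 + k) ∧ μ ≤ E (N + 3 + k) := by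
    intro k
    induction k with
    | zero => rw [hμ]; exact ⟨min_le_left _ _, min_le_right _ _⟩
    | succ k ih =>
      have h2 : N + 2 + (k + 1) = N + 3 + k := by ring
      refine ⟨by rw [h2]; exact ih.2, ?_⟩
      rw [show N + 3 + (k + 1) = (N + 2 + k) + 2 by ring, hrec]
      rw [show N + 2 + k + 1 = N + 3 + k by ring]
      have h3 := hN (N + 2 + k) (by omega)
      have h4 := mul_le_mul_of_nonneg_left ih.2 (hPp (N + 2 + k)).le
      have h5 := mul_le_mul_of_nonneg_left ih.1 (hQp (N + 2 + k)).le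
      have h6 : μ ≤ (P (N + 2 + k) + Q (N + 2 + k)) * μ := by
        have := mul_le_mul_of_nonneg_right h3.le hμ0.le
        linarith
      linarith
  have hto : Tendsto (fun n => |y n - x n|) atTop (𝓝 0) := by
    have := (ty'.sub tx').abs
    rw [sub_self, abs_zero] at this
    exact this
  have hto2 := (tendsto_add_atTop_iff_nat (N + 2)).2 hto
  have hle : ∀ k, μ ≤ |y (k + (N + 2)) - x (k + (N + 2))| := by
    intro k
    have h2 := (hlow k).1
    rw [hE] at h2
    have h3 : (-1 : ℝ) ^ (N + 2 + k) * (y (N + 2 + k) - x (N + 2 + k)) ≤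
        |(-1 : ℝ) ^ (N + 2 + k) * (y (N + 2 + k) - x (N + 2 + k))| := le_abs_self _
    rw [abs_mul, abs_pow, abs_neg, abs_one, one_pow, one_mul] at h3
    rw [show k + (N + 2) = N + 2 + k by ring]
    linarith
  have := ge_of_tendsto' hto2 hle
  linarith

theorem const_sol (c : Cst α A B e m M) : IsSol α A B (fun _ => e) := by
  have := c.e0
  have := c.hB
  have := c.hA0
  exact ⟨c.e0.le, c.e0.le, by positivity, fun n => (F_ee c).symm⟩

theorem const_two : Two (fun _ => e) e e := ⟨tendsto_const_nhds, tendsto_const_nhds⟩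

/-- straddling terms: first quadrant -/
theorem quad (c : Cst α A B e m M) (h : IsSol α A B z) (h0 : e ≤ z 0) (h1 : z 1 ≤ e)
    (hne : z 0 ≠ e ∨ z 1 ≠ e) : Two z M m := by
  have ht := trap c h (q := e) (p := e) c.hme.le (by linarith [c.heM, c.M1]) c.e0.le
    (F_ee c).ge (F_ee c).le h0 h1
  rcases trichotomy c h with h2 | h2 | h2
  · exfalso
    have := W_unique c (const_sol c) h const_two h2 h0 h1
    rcases hne with h3 | h3
    · exact h3 this.1.symm
    · exact h3 this.2.symm
  · exact h2
  · exfalso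
    have := ge_of_tendsto' h2.1 (fun k => (ht k).1)
    linarith [c.hme]

/-- straddling terms: second quadrant -/
theorem quad' (c : Cst α A B e m M) (h : IsSol α A B z) (h0 : z 0 ≤ e) (h1 : e ≤ z 1)
    (hne : z 0 ≠ e ∨ z 1 ≠ e) : Two z m M := by
  have hB := c.hB
  have hA := c.hA0
  have he0 := c.e0
  have hee : 0 < A + B * e + e := by positivity
  have h2 : z 2 ≤ e := by
    rw [sol_F h 0]
    calc F α A B (z (0 + 1)) (z 0) ≤ F α A B e e :=
          F_comp c (nn c h 0) (c.nl_of_le (by linarith [c.hme])) hee h1 h0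
      _ = e := F_ee c
  apply Two.of_shift
  refine quad c (h.shift c 1) h1 h2 ?_
  by_contra hno
  push Not at hno
  obtain ⟨h3, h4⟩ := hno
  change z 1 = e at h3
  change z 2 = e at h4
  have h5 := sol_rel c h 0
  change z 2 * (A + B * z 1 + z 0) = α + z 0 at h5
  rw [h3, h4] at h5
  have h6 := c.he
  have h7 : (z 0 - e) * (e - 1) = 0 := by linarith
  have h8 : e - 1 ≠ 0 := by
    have := c.M1
    have := c.heM
    intro h9
    linarith
  rcases mul_eq_zero.1 h7 with h9 | h9
  · rcases hne with h10 | h10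
    · exact h10 (by linarith)
    · exact h10 h3
  · exact h8 h9

theorem comp (c : Cst α A B e m M) (hx : IsSol α A B x) (hy : IsSol α A B y)
    (h0 : x 0 ≤ y 0) (h1 : y 1 ≤ x 1) :
    (∀ k, x (2 * k) ≤ y (2 * k) ∧ y (2 * k + 1) ≤ x (2 * k + 1)) ∨
      (∃ n, A + B * x (n + 1) ≤ α ∧ A + B * y (n + 1) ≤ α) := by
  have hB := c.hB
  by_cases hlow : ∃ n, A + B * x (n + 1) ≤ α ∧ A + B * y (n + 1) ≤ α
  · exact Or.inr hlow
  · left
    push Not at hlow
    intro k
    induction k with
    | zero => exact ⟨h0, h1⟩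
    | succ k ih =>
      have nl1 : α < A + B * x (2 * k + 1) := by
        by_contra hl
        push Not at hl
        have h2 := hlow (2 * k) hl
        have h3 : B * y (2 * k + 1) ≤ B * x (2 * k + 1) :=
          mul_le_mul_of_nonneg_left ih.2 (by linarith)
        linarith
      have g1 : x (2 * k + 2) ≤ y (2 * k + 2) := by
        rw [sol_F hx (2 * k), sol_F hy (2 * k)]
        exact F_comp c (nn c hx _) nl1 (den c hy _) ih.2 ih.1
      have nl2 : α < A + B * y (2 * k + 2) := by
        by_contra hl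
        push Not at hl
        have h3 : B * x (2 * k + 2) ≤ B * y (2 * k + 2) :=
          mul_le_mul_of_nonneg_left g1 (by linarith)
        have h2 := hlow (2 * k + 1) (by
          change A + B * x (2 * k + 2) ≤ α
          linarith)
        change α < A + B * y (2 * k + 2) at h2
        linarith
      have g2 : y (2 * k + 3) ≤ x (2 * k + 3) := by
        rw [show 2 * k + 3 = 2 * k + 1 + 2 by ring, sol_F hx (2 * k + 1), sol_F hy (2 * k + 1)]
        exact F_comp c (nn c hy _) nl2 (den c hx _) g1 ih.2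
      exact ⟨g1, g2⟩

theorem both_low (c : Cst α A B e m M) (hx : IsSol α A B x) (hy : IsSol α A B y) {n : ℕ}
    (h1 : A + B * x (n + 1) ≤ α) (h2 : A + B * y (n + 1) ≤ α) :
    (Two x M m ∧ Two y M m) ∨ (Two x m M ∧ Two y m M) := by
  have hx' := low_two c (hx.shift c n) (by rw [add_comm 1 n]; exact h1)
  have hy' := low_two c (hy.shift c n) (by rw [add_comm 1 n]; exact h2)
  rcases Nat.even_or_odd n with he | ho
  · left
    exact ⟨(Two.parity n hx').1 he, (Two.parity n hy').1 he⟩
  · right
    exact ⟨(Two.parity n hx').2 ho, (Two.parity n hy').2 ho⟩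

theorem mM_ne (c : Cst α A B e m M) : m < M := c.hme.trans c.heM

theorem up_closed (c : Cst α A B e m M) (hx : IsSol α A B x) (hy : IsSol α A B y)
    (h0 : x 0 ≤ y 0) (h1 : y 1 ≤ x 1) (ty : Two y m M) : Two x m M := by
  rcases comp c hx hy h0 h1 with h2 | ⟨n, h2, h3⟩
  · rcases trichotomy c hx with h4 | h4 | h4
    · exfalso
      have := le_of_tendsto_of_tendsto' h4.1 ty.1 (fun k => (h2 k).1)
      linarith [c.hme]
    · exfalso
      have := le_of_tendsto_of_tendsto' h4.1 ty.1 (fun k => (h2 k).1)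
      linarith [mM_ne c]
    · exact h4
  · rcases both_low c hx hy h2 h3 with h4 | h4
    · exfalso
      have := (h4.2.unique ty).1
      linarith [mM_ne c]
    · exact h4.1

theorem down_closed (c : Cst α A B e m M) (hx : IsSol α A B x) (hy : IsSol α A B y)
    (h0 : x 0 ≤ y 0) (h1 : y 1 ≤ x 1) (tx : Two x M m) : Two y M m := by
  rcases comp c hx hy h0 h1 with h2 | ⟨n, h2, h3⟩
  · rcases trichotomy c hy with h4 | h4 | h4
    · exfalso
      have := le_of_tendsto_of_tendsto' tx.1 h4.1 (fun k => (h2 k).1)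
      linarith [c.heM]
    · exact h4
    · exfalso
      have := le_of_tendsto_of_tendsto' tx.1 h4.1 (fun k => (h2 k).1)
      linarith [mM_ne c]
  · rcases both_low c hx hy h2 h3 with h4 | h4
    · exact h4.2
    · exfalso
      have := (h4.1.unique tx).1
      linarith [mM_ne c]

end compare

/-! ### the plane of initial values -/

section plane

noncomputable def orb (α A B a b : ℝ) : ℕ → ℝ
  | 0 => a
  | 1 => b
  | (n + 2) => F α A B (orb α A B a b (n + 1)) (orb α A B a b n)

def Adm (A B a b : ℝ) : Prop := 0 ≤ a ∧ 0 ≤ b ∧ 0 < A + B * b + a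

theorem orb_sol {a b : ℝ} (h : Adm A B a b) : IsSol α A B (orb α A B a b) :=
  ⟨h.1, h.2.1, h.2.2, fun n => rfl⟩

theorem eq_orb {x : ℕ → ℝ} (h : IsSol α A B x) : x = orb α A B (x 0) (x 1) := by
  have key : ∀ n, x n = orb α A B (x 0) (x 1) n ∧ x (n + 1) = orb α A B (x 0) (x 1) (n + 1) := by
    intro n
    induction n with
    | zero => exact ⟨rfl, rfl⟩
    | succ n ih =>
      refine ⟨ih.2, ?_⟩
      rw [show n + 1 + 1 = n + 2 by rfl, sol_F h n, ih.1, ih.2]
      rfl
  funext n
  exact (key n).1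

theorem orb_cont (c : Cst α A B e m M) {a b : ℝ} (h : Adm A B a b) (n : ℕ) :
    ContinuousAt (fun p : ℝ × ℝ => orb α A B p.1 p.2 n) (a, b) ∧
      ContinuousAt (fun p : ℝ × ℝ => orb α A B p.1 p.2 (n + 1)) (a, b) := by
  induction n with
  | zero => exact ⟨continuous_fst.continuousAt, continuous_snd.continuousAt⟩
  | succ n ih =>
    refine ⟨ih.2, ?_⟩
    have hd := den c (orb_sol (α := α) h) n
    have : ContinuousAt (fun p : ℝ × ℝ => (α + orb α A B p.1 p.2 n) /
        (A + B * orb α A B p.1 p.2 (n + 1) + orb α A B p.1 p.2 n)) (a, b) := by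
      refine ContinuousAt.div (continuousAt_const.add ih.1) ?_ hd.ne'
      exact (continuousAt_const.add (continuousAt_const.mul ih.2)).add ih.1
    exact this

theorem open_up (c : Cst α A B e m M) {a b : ℝ} (h : Adm A B a b)
    (ht : Two (orb α A B a b) m M) :
    ∀ᶠ p in 𝓝 (a, b), Adm A B p.1 p.2 → Two (orb α A B p.1 p.2) m M := by
  have h1 := ht.1.eventually (gt_mem_nhds c.hme)
  have h2 := ht.2.eventually (lt_mem_nhds c.heM)
  obtain ⟨k, hk1, hk2⟩ := (h1.and h2).exists
  have c1 := (orb_cont c h (2 * k)).1.eventually (gt_mem_nhds hk1)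
  have c2 := (orb_cont c h (2 * k)).2.eventually (lt_mem_nhds hk2)
  filter_upwards [c1, c2] with p hp1 hp2 hadm
  have hs := (orb_sol (α := α) hadm).shift c (2 * k)
  have h3 := quad' c hs (by change orb α A B p.1 p.2 (0 + 2 * k) ≤ e; rw [zero_add]; exact hp1.le)
    (by change e ≤ orb α A B p.1 p.2 (1 + 2 * k); rw [add_comm 1]; exact hp2.le)
    (Or.inl (by change orb α A B p.1 p.2 (0 + 2 * k) ≠ e; rw [zero_add]; exact hp1.ne))
  exact (Two.parity (2 * k) h3).1 ⟨k, by ring⟩

theorem open_down (c : Cst α A B e m M) {a b : ℝ} (h : Adm A B a b)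
    (ht : Two (orb α A B a b) M m) :
    ∀ᶠ p in 𝓝 (a, b), Adm A B p.1 p.2 → Two (orb α A B p.1 p.2) M m := by
  have h1 := ht.1.eventually (lt_mem_nhds c.heM)
  have h2 := ht.2.eventually (gt_mem_nhds c.hme)
  obtain ⟨k, hk1, hk2⟩ := (h1.and h2).exists
  have c1 := (orb_cont c h (2 * k)).1.eventually (lt_mem_nhds hk1)
  have c2 := (orb_cont c h (2 * k)).2.eventually (gt_mem_nhds hk2)
  filter_upwards [c1, c2] with p hp1 hp2 hadm
  have hs := (orb_sol (α := α) hadm).shift c (2 * k)
  have h3 := quad c hs (by change e ≤ orb α A B p.1 p.2 (0 + 2 * k); rw [zero_add]; exact hp1.le)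
    (by change orb α A B p.1 p.2 (1 + 2 * k) ≤ e; rw [add_comm 1]; exact hp2.le)
    (Or.inl (by change orb α A B p.1 p.2 (0 + 2 * k) ≠ e; rw [zero_add]; exact hp1.ne'))
  exact (Two.parity (2 * k) h3).1 ⟨k, by ring⟩

def upSet (α A B m M a : ℝ) : Set ℝ := {b | Adm A B a b ∧ Two (orb α A B a b) m M}

noncomputable def phi (α A B m M a : ℝ) : ℝ := sInf (upSet α A B m M a)

theorem upSet_nonempty (c : Cst α A B e m M) {a : ℝ} (ha : 0 ≤ a) :
    (upSet α A B m M a).Nonempty := by
  have hα := c.hα
  have hB := c.hB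
  have hA := c.hA0
  have he0 := c.e0
  have hB0 : 0 < B := by linarith
  obtain ⟨b, hb⟩ : ∃ b, b = e + 1 + (α + a) / (B * e) := ⟨_, rfl⟩
  have hfr : 0 < (α + a) / (B * e) := by positivity
  have hb0 : 0 < b := by linarith
  have hadm : Adm A B a b := ⟨ha, hb0.le, by positivity⟩
  refine ⟨b, hadm, ?_⟩
  apply Two.of_shift
  have hs := orb_sol (α := α) hadm
  refine quad c (hs.shift c 1) ?_ ?_ (Or.inl ?_)
  · change e ≤ b
    linarith
  · change F α A B b a ≤ e
    unfold F
    rw [div_le_iff₀ hadm.2.2]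
    have h1 : B * e * ((α + a) / (B * e)) = α + a := by field_simp
    have h2 : e * (B * b) = B * e * (e + 1) + B * e * ((α + a) / (B * e)) := by
      rw [hb]; ring
    have h3 : 0 ≤ B * e * (e + 1) := by positivity
    have h4 : 0 ≤ e * A := by positivity
    have h5 : 0 ≤ e * a := by positivity
    nlinarith
  · change b ≠ e
    intro h1
    linarith

theorem upSet_bdd (a : ℝ) : BddBelow (upSet α A B m M a) := ⟨0, fun _ hb => hb.1.2.1⟩

theorem phi_nonneg (a : ℝ) : 0 ≤ phi α A B m M a :=
  Real.sInf_nonneg (fun _ hb => hb.1.2.1)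

theorem adm_pos (c : Cst α A B e m M) {a b : ℝ} (ha : 0 ≤ a) (hb : 0 < b) : Adm A B a b := by
  have hB := c.hB
  have hA := c.hA0
  exact ⟨ha, hb.le, by positivity⟩

theorem up_of_gt (c : Cst α A B e m M) {a b : ℝ} (ha : 0 ≤ a) (hb : phi α A B m M a < b) :
    Two (orb α A B a b) m M := by
  obtain ⟨b', hb', hlt⟩ := exists_lt_of_csInf_lt (upSet_nonempty c ha) hb
  have h0 : 0 < b := lt_of_le_of_lt (phi_nonneg a) hb
  exact up_closed c (orb_sol (adm_pos c ha h0)) (orb_sol hb'.1) le_rfl hlt.le hb'.2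

theorem not_up_of_lt {a b : ℝ} (hadm : Adm A B a b) (hb : b < phi α A B m M a) :
    ¬ Two (orb α A B a b) m M := by
  intro h
  have := csInf_le (upSet_bdd (α := α) (A := A) (B := B) (m := m) (M := M) a) ⟨hadm, h⟩
  unfold phi at hb
  linarith

theorem adm_phi (c : Cst α A B e m M) {a : ℝ} (ha : 0 ≤ a) : Adm A B a (phi α A B m M a) := by
  have hα := c.hα
  have hB := c.hB
  have hA := c.hA0
  have hp := phi_nonneg (α := α) (A := A) (B := B) (m := m) (M := M) a
  refine ⟨ha, hp, ?_⟩
  have hBp : 0 ≤ B * phi α A B m M a := by positivity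
  rcases ha.eq_or_lt with h0 | h0
  · rcases hA.eq_or_lt with h1 | h1
    · have hge : α / B ≤ phi α A B m M a := by
        apply le_csInf (upSet_nonempty c ha)
        rintro b ⟨hb1, hb2⟩
        by_contra hlt
        push Not at hlt
        have hlow : A + B * b ≤ α := by
          rw [lt_div_iff₀ (by linarith)] at hlt
          linarith
        have h3 := low_two c (orb_sol (α := α) hb1) hlow
        have := (h3.unique hb2).1
        linarith [mM_ne c]
      have : 0 < α / B := by positivity
      have : 0 < phi α A B m M a := by linarith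
      positivity
    · linarith
  · linarith

/-- dichotomy at the infimum -/
theorem phi_cases (c : Cst α A B e m M) {a : ℝ} (ha : 0 ≤ a) :
    Two (orb α A B a (phi α A B m M a)) e e ∨
      (phi α A B m M a = 0 ∧ Two (orb α A B a 0) m M) := by
  have hadm := adm_phi c ha
  rcases trichotomy c (orb_sol (α := α) hadm) with h1 | h1 | h1
  · exact Or.inl h1
  · exfalso
    have h2 := open_down c hadm h1
    have h3 : Tendsto (fun b : ℝ => (a, b)) (𝓝 (phi α A B m M a))
        (𝓝 (a, phi α A B m M a)) := (Continuous.prodMk_right a).continuousAt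
    have h4 := h3.eventually h2
    obtain ⟨ε, hε, h5⟩ := Metric.eventually_nhds_iff.1 h4
    have h6 := h5 (y := phi α A B m M a + ε / 2) (by
      rw [Real.dist_eq, abs_of_pos (by linarith)]; linarith)
    have h7 : phi α A B m M a < phi α A B m M a + ε / 2 := by linarith
    have h8 := up_of_gt c ha h7
    have h9 := h6 (adm_pos c ha (by linarith [hadm.2.1]))
    have := (h8.unique h9).1
    linarith [mM_ne c]
  · right
    have hz : phi α A B m M a = 0 := by
      by_contra hne
      have hp : 0 < phi α A B m M a := lt_of_le_of_ne hadm.2.1 (Ne.symm hne)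
      have h2 := open_up c hadm h1
      have h3 : Tendsto (fun b : ℝ => (a, b)) (𝓝 (phi α A B m M a))
          (𝓝 (a, phi α A B m M a)) := (Continuous.prodMk_right a).continuousAt
      have h4 := h3.eventually h2
      obtain ⟨ε, hε, h5⟩ := Metric.eventually_nhds_iff.1 h4
      obtain ⟨δ, hδ⟩ : ∃ δ, δ = min (ε / 2) (phi α A B m M a / 2) := ⟨_, rfl⟩
      have hδ0 : 0 < δ := by rw [hδ]; exact lt_min (by linarith) (by linarith)
      have hδ1 : δ ≤ ε / 2 := by rw [hδ]; exact min_le_left _ _
      have hδ2 : δ ≤ phi α A B m M a / 2 := by rw [hδ]; exact min_le_right _ _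
      have h6 := h5 (y := phi α A B m M a - δ) (by
        rw [Real.dist_eq, abs_sub_comm, abs_of_pos (by linarith)]; linarith)
      have h7 := adm_pos c (B := B) ha (b := phi α A B m M a - δ) (by linarith)
      exact not_up_of_lt h7 (by linarith) (h6 h7)
    refine ⟨hz, ?_⟩
    rw [hz] at h1
    exact h1

theorem J1 (c : Cst α A B e m M) {a a' : ℝ} (ha : 0 ≤ a) (haa : a < a')
    (hJ : Two (orb α A B a (phi α A B m M a)) e e) :
    Two (orb α A B a' (phi α A B m M a')) e e ∧ phi α A B m M a < phi α A B m M a' := by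
  have ha' : 0 ≤ a' := by linarith
  have hs := orb_sol (α := α) (adm_phi c ha)
  have hJ' : Two (orb α A B a' (phi α A B m M a')) e e := by
    rcases phi_cases c ha' with h1 | ⟨h1, h2⟩
    · exact h1
    · exfalso
      have hadm : Adm A B a' 0 := by
        have := adm_phi c ha'
        rw [h1] at this
        exact this
      have h3 := up_closed c hs (orb_sol hadm) haa.le (phi_nonneg a) h2
      have := (h3.unique hJ).1
      linarith [c.hme]
  refine ⟨hJ', ?_⟩
  by_contra hle
  push Not at hle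
  have := (W_unique c hs (orb_sol (adm_phi c ha')) hJ hJ' haa.le hle).1
  change a = a' at this
  linarith

theorem down_of_lt (c : Cst α A B e m M) {a b : ℝ} (hadm : Adm A B a b)
    (hJ : Two (orb α A B a (phi α A B m M a)) e e) (hb : b < phi α A B m M a) :
    Two (orb α A B a b) M m := by
  rcases trichotomy c (orb_sol (α := α) hadm) with h1 | h1 | h1
  · exfalso
    have := (W_unique c (orb_sol (adm_phi c hadm.1)) (orb_sol hadm) hJ h1 le_rfl hb.le).2
    change phi α A B m M a = b at this
    linarith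
  · exact h1
  · exact absurd h1 (not_up_of_lt hadm hb)

theorem J2 (c : Cst α A B e m M) :
    phi α A B m M e = e ∧ Two (orb α A B e (phi α A B m M e)) e e := by
  have he0 := c.e0
  have hconst : orb α A B e e = fun _ => e := (eq_orb (const_sol c)).symm
  have h1 : phi α A B m M e = e := by
    apply le_antisymm
    · apply le_of_forall_gt_imp_ge_of_dense
      intro b hb
      apply csInf_le (upSet_bdd _)
      have hadm := adm_pos c (B := B) he0.le (b := b) (by linarith)
      exact ⟨hadm, quad' c (orb_sol hadm) le_rfl hb.le (Or.inr hb.ne')⟩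
    · apply le_csInf (upSet_nonempty c he0.le)
      rintro b ⟨hb1, hb2⟩
      by_contra hlt
      push Not at hlt
      have h2 := quad c (orb_sol (α := α) hb1) le_rfl hlt.le (Or.inr hlt.ne)
      have := (h2.unique hb2).1
      linarith [mM_ne c]
  refine ⟨h1, ?_⟩
  rw [h1, hconst]
  exact const_two

def Jset (α A B e m M : ℝ) : Set ℝ := {a | 0 ≤ a ∧ Two (orb α A B a (phi α A B m M a)) e e}

theorem main (c : Cst α A B e m M) : ∃ (a₀ : ℝ) (φ : ℝ → ℝ), 0 ≤ a₀ ∧ a₀ ≤ e ∧
    ContinuousOn φ (Set.Ici a₀) ∧ StrictMonoOn φ (Set.Ici a₀) ∧ φ e = e ∧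
    (0 < a₀ → φ a₀ = 0) ∧
    (∀ a, a₀ ≤ a → a₀ ≤ φ a ∧ φ (φ a) = (α + a) / (A + B * φ a + a)) ∧
    ∀ x : ℕ → ℝ, IsSol α A B x →
      ((Tendsto x atTop (𝓝 e) ↔ a₀ ≤ x 0 ∧ x 1 = φ (x 0)) ∧
      (Two x m M ↔ x 0 < a₀ ∨ φ (x 0) < x 1) ∧
      (Two x M m ↔ a₀ ≤ x 0 ∧ x 1 < φ (x 0)) ∧
      ((Two x m M ∨ Two x M m) ↔
        ∃ n, (x n - e) * (x (n + 1) - e) ≤ 0 ∧ (x n ≠ e ∨ x (n + 1) ≠ e))) := by
  have he0 := c.e0
  have hB := c.hB
  have hA := c.hA0
  have hJe : e ∈ Jset α A B e m M := ⟨he0.le, (J2 c).2⟩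
  have hJbdd : BddBelow (Jset α A B e m M) := ⟨0, fun a ha => ha.1⟩
  obtain ⟨a₀, ha₀⟩ : ∃ a₀, a₀ = sInf (Jset α A B e m M) := ⟨_, rfl⟩
  obtain ⟨φ, hφ⟩ : ∃ φ : ℝ → ℝ, ∀ a, φ a = phi α A B m M a := ⟨_, fun a => rfl⟩
  have h00 : 0 ≤ a₀ := by rw [ha₀]; exact Real.sInf_nonneg (fun a ha => ha.1)
  have h0e : a₀ ≤ e := by rw [ha₀]; exact csInf_le hJbdd hJe
  have J3 : ∀ a, a₀ < a → Two (orb α A B a (φ a)) e e := by
    intro a ha
    rw [ha₀] at ha
    obtain ⟨a1, h1, h2⟩ := exists_lt_of_csInf_lt ⟨e, hJe⟩ ha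
    rw [hφ]
    exact (J1 c h1.1 h2 h1.2).1
  have J4 : Two (orb α A B a₀ (φ a₀)) e e := by
    rcases phi_cases c h00 with h1 | ⟨h1, h2⟩
    · rw [hφ]; exact h1
    · exfalso
      have hadm : Adm A B a₀ 0 := by
        have := adm_phi c h00
        rw [h1] at this
        exact this
      have h3 := open_up c hadm h2
      have h4 : Tendsto (fun a : ℝ => (a, (0 : ℝ))) (𝓝 a₀) (𝓝 (a₀, 0)) :=
        (Continuous.prodMk_left 0).continuousAt
      obtain ⟨ε, hε, h5⟩ := Metric.eventually_nhds_iff.1 (h4.eventually h3)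
      have h6 := h5 (y := a₀ + ε / 2) (by
        rw [Real.dist_eq, abs_of_pos (by linarith)]; linarith)
      have hadm' : Adm A B (a₀ + ε / 2) 0 := ⟨by linarith, le_rfl, by
        have := hadm.2.2
        linarith⟩
      have h7 := h6 hadm'
      have h8 := J3 (a₀ + ε / 2) (by linarith)
      rw [hφ] at h8
      have hadm2 := adm_phi c (a := a₀ + ε / 2) (by linarith)
      have h9 := up_closed c (orb_sol hadm2) (orb_sol hadm') le_rfl (phi_nonneg _) h7
      have := (h9.unique h8).1
      linarith [c.hme]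
  have J34 : ∀ a, a₀ ≤ a → Two (orb α A B a (φ a)) e e := by
    intro a ha
    rcases ha.eq_or_lt with h | h
    · rw [← h]; exact J4
    · exact J3 a h
  have J5 : ∀ a, 0 ≤ a → a < a₀ → φ a = 0 ∧ Adm A B a 0 ∧ Two (orb α A B a 0) m M := by
    intro a ha hlt
    rcases phi_cases c ha with h1 | ⟨h1, h2⟩
    · exfalso
      have : a₀ ≤ a := by rw [ha₀]; exact csInf_le hJbdd ⟨ha, h1⟩
      linarith
    · have := adm_phi c ha
      rw [h1] at this
      exact ⟨by rw [hφ]; exact h1, this, h2⟩
  have upall : ∀ a b, Adm A B a b → a < a₀ → Two (orb α A B a b) m M := by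
    intro a b hadm hlt
    obtain ⟨_, h2, h3⟩ := J5 a hadm.1 hlt
    exact up_closed c (orb_sol hadm) (orb_sol h2) le_rfl hadm.2.1 h3
  have J6 : 0 < a₀ → φ a₀ = 0 := by
    intro hpos
    by_contra hne
    have hp : 0 < φ a₀ := by
      rw [hφ] at hne ⊢
      exact lt_of_le_of_ne (phi_nonneg _) (Ne.symm hne)
    have hadm := adm_pos c (B := B) h00 (b := φ a₀ / 2) (by linarith)
    have h1 : Two (orb α A B a₀ (φ a₀ / 2)) M m := by
      refine down_of_lt c hadm (by rw [← hφ]; exact J4) (by rw [← hφ]; linarith)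
    have h2 := open_down c hadm h1
    have h4 : Tendsto (fun a : ℝ => (a, φ a₀ / 2)) (𝓝 a₀) (𝓝 (a₀, φ a₀ / 2)) :=
      (Continuous.prodMk_left _).continuousAt
    obtain ⟨ε, hε, h5⟩ := Metric.eventually_nhds_iff.1 (h4.eventually h2)
    obtain ⟨δ, hδ⟩ : ∃ δ, δ = min (ε / 2) (a₀ / 2) := ⟨_, rfl⟩
    have hδ0 : 0 < δ := by rw [hδ]; exact lt_min (by linarith) (by linarith)
    have hδ1 : δ ≤ ε / 2 := by rw [hδ]; exact min_le_left _ _
    have hδ2 : δ ≤ a₀ / 2 := by rw [hδ]; exact min_le_right _ _
    have h6 := h5 (y := a₀ - δ) (by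
      rw [Real.dist_eq, abs_sub_comm, abs_of_pos (by linarith)]; linarith)
    have hadm' := adm_pos c (B := B) (a := a₀ - δ) (b := φ a₀ / 2) (by linarith) (by linarith)
    have h7 := h6 hadm'
    have h8 := upall _ _ hadm' (by linarith)
    have := (h8.unique h7).1
    linarith [mM_ne c]
  have charW : ∀ a b, Adm A B a b → (Two (orb α A B a b) e e ↔ a₀ ≤ a ∧ b = φ a) := by
    intro a b hadm
    constructor
    · intro h
      have ha : a₀ ≤ a := by
        by_contra hlt
        push Not at hlt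
        have := (h.unique (upall a b hadm hlt)).1
        linarith [c.hme]
      refine ⟨ha, ?_⟩
      have h1 := J34 a ha
      have hadm2 := adm_phi c hadm.1
      rw [← hφ] at hadm2
      rcases le_total b (φ a) with h2 | h2
      · exact (W_unique c (orb_sol hadm2) (orb_sol hadm) h1 h le_rfl h2).2.symm
      · exact (W_unique c (orb_sol hadm) (orb_sol hadm2) h h1 le_rfl h2).2
    · rintro ⟨h1, rfl⟩
      exact J34 a h1
  have charU : ∀ a b, Adm A B a b → (Two (orb α A B a b) m M ↔ a < a₀ ∨ φ a < b) := by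
    intro a b hadm
    constructor
    · intro h
      by_contra hno
      push Not at hno
      rcases hno.2.eq_or_lt with h1 | h1
      · have := (charW a b hadm).2 ⟨hno.1, h1⟩
        have := (h.unique this).1
        linarith [c.hme]
      · rw [hφ] at h1
        exact not_up_of_lt hadm h1 h
    · rintro (h | h)
      · exact upall a b hadm h
      · rw [hφ] at h
        exact up_of_gt c hadm.1 h
  have charD : ∀ a b, Adm A B a b → (Two (orb α A B a b) M m ↔ a₀ ≤ a ∧ b < φ a) := by
    intro a b hadm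
    constructor
    · intro h
      refine ⟨?_, ?_⟩
      · by_contra hlt
        push Not at hlt
        have := (h.unique (upall a b hadm hlt)).1
        linarith [mM_ne c]
      · by_contra hge
        push Not at hge
        by_cases ha : a₀ ≤ a
        · rcases hge.eq_or_lt with h1 | h1
          · have := (h.unique ((charW a b hadm).2 ⟨ha, h1.symm⟩)).1
            linarith [c.heM]
          · have := (h.unique ((charU a b hadm).2 (Or.inr h1))).1
            linarith [mM_ne c]
        · push Not at ha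
          have := (h.unique (upall a b hadm ha)).1
          linarith [mM_ne c]
    · rintro ⟨h1, h2⟩
      refine down_of_lt c hadm ?_ (by rw [← hφ]; exact h2)
      rw [← hφ]
      exact J34 a h1
  refine ⟨a₀, φ, h00, h0e, ?_, ?_, by rw [hφ]; exact (J2 c).1, J6, ?_, ?_⟩
  · -- continuity
    intro a ha
    have haa : a₀ ≤ a := ha
    have ha0 : 0 ≤ a := by linarith
    rw [ContinuousWithinAt, tendsto_order]
    constructor
    · intro t ht
      rcases (phi_nonneg (α := α) (A := A) (B := B) (m := m) (M := M) a).eq_or_lt with h1 | h1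
      · filter_upwards [self_mem_nhdsWithin] with a' _
        rw [hφ] at ht ⊢
        rw [← h1] at ht
        exact lt_of_lt_of_le ht (phi_nonneg _)
      · obtain ⟨t', ht'⟩ : ∃ t', t' = max ((t + φ a) / 2) (φ a / 2) := ⟨_, rfl⟩
        rw [← hφ] at h1
        have e1 : t < t' := by
          rw [ht']; exact lt_max_of_lt_left (by linarith)
        have e2 : 0 < t' := by
          rw [ht']; exact lt_max_of_lt_right (by linarith)
        have e3 : t' < φ a := by
          rw [ht']; exact max_lt (by linarith) (by linarith)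
        have hadm := adm_pos c (B := B) ha0 e2
        have h2 := (charD a t' hadm).2 ⟨haa, e3⟩
        have h3 := open_down c hadm h2
        have h4 : Tendsto (fun a : ℝ => (a, t')) (𝓝 a) (𝓝 (a, t')) :=
          (Continuous.prodMk_left _).continuousAt
        have h5 := (h4.eventually h3).filter_mono (nhdsWithin_le_nhds (s := Set.Ici a₀))
        filter_upwards [h5, self_mem_nhdsWithin] with a' h6 h7
        have h7' : a₀ ≤ a' := h7
        have hadm' := adm_pos c (B := B) (a := a') (by linarith) e2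
        have := ((charD a' t' hadm').1 (h6 hadm')).2
        linarith
    · intro t ht
      obtain ⟨t', ht'⟩ : ∃ t', t' = (t + φ a) / 2 := ⟨_, rfl⟩
      have hp := phi_nonneg (α := α) (A := A) (B := B) (m := m) (M := M) a
      rw [← hφ] at hp
      have e1 : t' < t := by linarith
      have e2 : φ a < t' := by linarith
      have e3 : 0 < t' := by linarith
      have hadm := adm_pos c (B := B) ha0 e3
      have h2 := (charU a t' hadm).2 (Or.inr e2)
      have h3 := open_up c hadm h2
      have h4 : Tendsto (fun a : ℝ => (a, t')) (𝓝 a) (𝓝 (a, t')) :=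
        (Continuous.prodMk_left _).continuousAt
      have h5 := (h4.eventually h3).filter_mono (nhdsWithin_le_nhds (s := Set.Ici a₀))
      filter_upwards [h5, self_mem_nhdsWithin] with a' h6 h7
      have h7' : a₀ ≤ a' := h7
      have hadm' := adm_pos c (B := B) (a := a') (by linarith) e3
      rcases (charU a' t' hadm').1 (h6 hadm') with h8 | h8
      · linarith
      · linarith
  · -- strict monotonicity
    intro a ha a' ha' hlt
    have haa : a₀ ≤ a := ha
    have h1 := J34 a haa
    rw [hφ] at h1 ⊢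
    rw [hφ]
    exact (J1 c (by linarith) hlt h1).2
  · -- invariance
    intro a ha
    have ha0 : 0 ≤ a := by linarith
    have hadm := adm_phi c ha0
    rw [← hφ] at hadm
    have h1 := J34 a ha
    have hs := orb_sol (α := α) hadm
    have h2 := two_shift_e h1 1
    have hs2 := hs.shift c 1
    have h3 := eq_orb hs2
    rw [h3] at h2
    have hadm3 : Adm A B (φ a) (orb α A B a (φ a) 2) :=
      ⟨hadm.2.1, (sol_pos c hs 0).le, den c hs 1⟩
    have h4 := (charW (φ a) (orb α A B a (φ a) 2) hadm3).1 h2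
    exact ⟨h4.1, h4.2.symm⟩
  · intro x hx
    have hadm : Adm A B (x 0) (x 1) := ⟨hx.1, hx.2.1, hx.2.2.1⟩
    have hxo := eq_orb hx
    have hW : Tendsto x atTop (𝓝 e) ↔ a₀ ≤ x 0 ∧ x 1 = φ (x 0) := by
      rw [← charW _ _ hadm, ← hxo]
      exact ⟨two_of_tendsto, fun h => h.tendsto⟩
    have hU : Two x m M ↔ x 0 < a₀ ∨ φ (x 0) < x 1 := by
      rw [← charU _ _ hadm, ← hxo]
    have hDn : Two x M m ↔ a₀ ≤ x 0 ∧ x 1 < φ (x 0) := by
      rw [← charD _ _ hadm, ← hxo]
    refine ⟨hW, hU, hDn, ?_⟩
    constructor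
    · rintro (h | h)
      · have h1 := h.1.eventually (gt_mem_nhds c.hme)
        have h2 := h.2.eventually (lt_mem_nhds c.heM)
        obtain ⟨k, hk1, hk2⟩ := (h1.and h2).exists
        refine ⟨2 * k, ?_, Or.inl hk1.ne⟩
        exact mul_nonpos_of_nonpos_of_nonneg (by linarith) (by linarith)
      · have h1 := h.1.eventually (lt_mem_nhds c.heM)
        have h2 := h.2.eventually (gt_mem_nhds c.hme)
        obtain ⟨k, hk1, hk2⟩ := (h1.and h2).exists
        refine ⟨2 * k, ?_, Or.inl hk1.ne'⟩
        exact mul_nonpos_of_nonneg_of_nonpos (by linarith) (by linarith)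
    · rintro ⟨n, h1, h2⟩
      have hs := hx.shift c n
      have key : Two (fun j => x (j + n)) M m ∨ Two (fun j => x (j + n)) m M := by
        rcases mul_nonpos_iff.1 h1 with ⟨h3, h4⟩ | ⟨h3, h4⟩
        · left
          refine quad c hs ?_ ?_ ?_
          · change e ≤ x (0 + n); rw [zero_add]; linarith
          · change x (1 + n) ≤ e; rw [add_comm 1]; linarith
          · change x (0 + n) ≠ e ∨ x (1 + n) ≠ e
            rw [zero_add, add_comm 1]; exact h2
        · right
          refine quad' c hs ?_ ?_ ?_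
          · change x (0 + n) ≤ e; rw [zero_add]; linarith
          · change e ≤ x (1 + n); rw [add_comm 1]; linarith
          · change x (0 + n) ≠ e ∨ x (1 + n) ≠ e
            rw [zero_add, add_comm 1]; exact h2
      rcases key with h3 | h3
      · rcases Nat.even_or_odd n with he | ho
        · right; exact (Two.parity n h3).1 he
        · left; exact (Two.parity n h3).2 ho
      · rcases Nat.even_or_odd n with he | ho
        · left; exact (Two.parity n h3).1 he
        · right; exact (Two.parity n h3).2 ho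

end plane

theorem cst_of {α A B : ℝ} (hα : 0 < α) (hB : 1 < B) (hA0 : 0 ≤ A) (hA1 : A < 1)
    (H : α < (B - 1) * (1 - A) ^ 2 / 4) :
    Cst α A B (xbar α A B) (cycm α A B) (cycM α A B) := by
  have hσ : 0 < 1 - A := by linarith
  have hB1 : 0 < B - 1 := by linarith
  obtain ⟨r, hr⟩ : ∃ r, r = √((1 - A) ^ 2 + 4 * α * (1 + B)) := ⟨_, rfl⟩
  obtain ⟨s, hs⟩ : ∃ s, s = √((1 - A) ^ 2 - 4 * α / (B - 1)) := ⟨_, rfl⟩
  have hr2 : r ^ 2 = (1 - A) ^ 2 + 4 * α * (1 + B) := by
    rw [hr]; exact Real.sq_sqrt (by positivity)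
  have hr0 : 0 ≤ r := by rw [hr]; exact Real.sqrt_nonneg _
  have hΔ : 0 < (1 - A) ^ 2 - 4 * α / (B - 1) := by
    rw [sub_pos, div_lt_iff₀ hB1]
    linarith
  have hs2 : s ^ 2 = (1 - A) ^ 2 - 4 * α / (B - 1) := by
    rw [hs]; exact Real.sq_sqrt hΔ.le
  have hs0 : 0 < s := by rw [hs]; exact Real.sqrt_pos.2 hΔ
  have hsσ : s < 1 - A := by
    have h1 : 0 < 4 * α / (B - 1) := by positivity
    nlinarith
  have he' : xbar α A B = (1 - A + r) / (2 * (1 + B)) := by unfold xbar; rw [hr]
  have hm' : cycm α A B = (1 - A - s) / 2 := by unfold cycm; rw [hs]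
  have hM' : cycM α A B = (1 - A + s) / 2 := by unfold cycM; rw [hs]
  obtain ⟨e, he⟩ : ∃ e, e = xbar α A B := ⟨_, rfl⟩
  obtain ⟨m, hm⟩ : ∃ m, m = cycm α A B := ⟨_, rfl⟩
  obtain ⟨M, hM⟩ : ∃ M, M = cycM α A B := ⟨_, rfl⟩
  rw [← he, ← hm, ← hM]
  rw [← he] at he'
  rw [← hm] at hm'
  rw [← hM] at hM'
  have hBe : (1 + B) * e = (1 - A + r) / 2 := by
    rw [he']; field_simp
  have he0 : 0 < e := by rw [he']; positivity
  have heq : e * ((1 + B) * e - (1 - A)) = α := by
    have h1 : (1 + B) * (e * ((1 + B) * e - (1 - A))) = (1 + B) * α := by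
      calc (1 + B) * (e * ((1 + B) * e - (1 - A)))
          = ((1 + B) * e) * ((1 + B) * e - (1 - A)) := by ring
        _ = (r ^ 2 - (1 - A) ^ 2) / 4 := by rw [hBe]; ring
        _ = (1 + B) * α := by rw [hr2]; ring
    exact mul_left_cancel₀ (by linarith) h1
  have he2 : 2 * e < 1 - A := by
    have h1 : r < (1 - A) * B := by
      apply lt_of_pow_lt_pow_left₀ 2 (by positivity)
      rw [hr2]
      have h2 : 4 * α * (1 + B) < (B - 1) * (1 - A) ^ 2 * (1 + B) :=
        mul_lt_mul_of_pos_right (by linarith) (by linarith)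
      have h3 : ((1 - A) * B) ^ 2 = (1 - A) ^ 2 + (B - 1) * (1 - A) ^ 2 * (1 + B) := by ring
      rw [h3]
      linarith
    have h2 : (1 + B) * (2 * e) < (1 + B) * (1 - A) := by
      have : (1 + B) * (2 * e) = 1 - A + r := by linarith
      rw [this]
      linarith
    exact lt_of_mul_lt_mul_left h2 (by linarith)
  have hm0 : 0 < m := by rw [hm']; linarith
  have hmM : m < M := by rw [hm', hM']; linarith
  have hsum : m + M = 1 - A := by rw [hm', hM']; ring
  have hprod : (B - 1) * m * M = α := by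
    have h1 : m * M = ((1 - A) ^ 2 - s ^ 2) / 4 := by rw [hm', hM']; ring
    rw [mul_assoc, h1, hs2]
    field_simp
    ring
  have hpos : 0 < (1 + B) * e - (1 - A) := by
    by_contra hle
    push Not at hle
    have := mul_nonpos_of_nonneg_of_nonpos he0.le hle
    linarith
  have hM0 : 0 < M := hm0.trans hmM
  refine ⟨hα, hB, hA0, hA1, heq, he2, hm0, ?_, ?_, hsum, hprod⟩
  · by_contra hge
    push Not at hge
    have h1 : e * ((1 + B) * e - (1 - A)) ≤ m * ((1 + B) * m - (1 - A)) := by
      have h2 : (1 + B) * e ≤ (1 + B) * m := mul_le_mul_of_nonneg_left hge (by linarith)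
      apply mul_le_mul hge (by linarith) hpos.le hm0.le
    have h3 : m * ((1 + B) * m - (1 - A)) - α = B * (m * (m - M)) := by
      rw [← hprod, ← hsum]; ring
    have h4 : m * (m - M) < 0 := mul_neg_of_pos_of_neg hm0 (by linarith)
    have h5 : B * (m * (m - M)) < 0 := mul_neg_of_pos_of_neg (by linarith) h4
    linarith
  · by_contra hge
    push Not at hge
    have h1 : M * ((1 + B) * M - (1 - A)) ≤ e * ((1 + B) * e - (1 - A)) := by
      have h2 : (1 + B) * M ≤ (1 + B) * e := mul_le_mul_of_nonneg_left hge (by linarith)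
      calc M * ((1 + B) * M - (1 - A)) ≤ M * ((1 + B) * e - (1 - A)) :=
            mul_le_mul_of_nonneg_left (by linarith) hM0.le
        _ ≤ _ := mul_le_mul_of_nonneg_right hge hpos.le
    have h3 : M * ((1 + B) * M - (1 - A)) - α = B * (M * (M - m)) := by
      rw [← hprod, ← hsum]; ring
    have h4 : 0 < B * (M * (M - m)) :=
      mul_pos (by linarith) (mul_pos hM0 (by linarith))
    linarith

/-- **Determination of the basin.** -/
theorem result : ∀ α A B : ℝ, 0 < α → 1 < B → 0 ≤ A → A < 1 →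
    α < (B - 1) * (1 - A) ^ 2 / 4 →
    ∃ (a₀ : ℝ) (φ : ℝ → ℝ), 0 ≤ a₀ ∧ a₀ ≤ xbar α A B ∧
      ContinuousOn φ (Set.Ici a₀) ∧ StrictMonoOn φ (Set.Ici a₀) ∧
      φ (xbar α A B) = xbar α A B ∧ (0 < a₀ → φ a₀ = 0) ∧
      (∀ a, a₀ ≤ a → a₀ ≤ φ a ∧ φ (φ a) = (α + a) / (A + B * φ a + a)) ∧
      ∀ x : ℕ → ℝ, IsSol α A B x →
        ((Tendsto x atTop (𝓝 (xbar α A B)) ↔ a₀ ≤ x 0 ∧ x 1 = φ (x 0)) ∧
        (Two x (cycm α A B) (cycM α A B) ↔ x 0 < a₀ ∨ φ (x 0) < x 1) ∧
        (Two x (cycM α A B) (cycm α A B) ↔ a₀ ≤ x 0 ∧ x 1 < φ (x 0)) ∧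
        ((Two x (cycm α A B) (cycM α A B) ∨ Two x (cycM α A B) (cycm α A B)) ↔
          ∃ n, (x n - xbar α A B) * (x (n + 1) - xbar α A B) ≤ 0 ∧
            (x n ≠ xbar α A B ∨ x (n + 1) ≠ xbar α A B))) :=
  fun _ _ _ hα hB hA0 hA1 H => main (cst_of hα hB hA0 hA1 H)

end Pool.Agent.Results.MP_a0c75d_an.StableCurve
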